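import Pool.Agent.KS6_11.CirLin.Main

/-!
# MP_0880e2_an: the constants of Fourier decompositions on the circle and on the line are comparable

Quantitative form of the equivalence: the best constants of the upper (lower) decomposition
inequalities on the circle and on the line differ at most by an absolute factor, which depends
neither on the Banach space nor on the exponents; from the circle to the line the factor is `π/2`.
-/

namespace Pool.Agent.Results.MP_0880e2_an.ComparableConstants

open Pool.Agent.R955.FD Pool.Agent.KS6_11.CirLin
open scoped ENNReal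

universe u

/-- **Main theorem.** There is an absolute constant `K` such that for every complex Banach space
`X`, all `p, q ∈ [1, ∞]` and all `U > 0`: if `X` has upper (lower) `ℓ^q(L^p)`-decompositions on the
circle with constant `U`, then it has them on the line with constant `π U / 2`; and if it has them
on the line with constant `U`, then it has them on the circle with constant `K U`. In particular
the properties on the circle and on the line are equivalent. -/
theorem result : ∃ K : ℝ, 1 ≤ K ∧ ∀ (X : Type u) [NormedAddCommGroup X] [NormedSpace ℂ X]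
    [CompleteSpace X] (p q : ℝ≥0∞), 1 ≤ p → 1 ≤ q →
      (∀ U : ℝ, 0 < U →
        (UpperTc X p q U → UpperRc X p q (Real.pi / 2 * U)) ∧
        (UpperRc X p q U → UpperTc X p q (K * U)) ∧
        (LowerTc X p q U → LowerRc X p q (Real.pi / 2 * U)) ∧
        (LowerRc X p q U → LowerTc X p q (K * U))) ∧
      (UpperT X p q ↔ UpperR X p q) ∧ (LowerT X p q ↔ LowerR X p q) := by
  obtain ⟨K, hK, h⟩ := main.{u}
  refine ⟨K, hK, fun X _ _ _ p q hp hq => ⟨fun U hU => h X p q hp hq U hU, ?_⟩⟩
  have hK0 : 0 < K := by linarith
  have hpi := Real.pi_pos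
  refine ⟨⟨?_, ?_⟩, ⟨?_, ?_⟩⟩
  · rintro ⟨U, hU, hT⟩
    exact ⟨Real.pi / 2 * U, by positivity, (h X p q hp hq U hU).1 hT⟩
  · rintro ⟨U, hU, hT⟩
    exact ⟨K * U, by positivity, (h X p q hp hq U hU).2.1 hT⟩
  · rintro ⟨U, hU, hT⟩
    exact ⟨Real.pi / 2 * U, by positivity, (h X p q hp hq U hU).2.2.1 hT⟩
  · rintro ⟨U, hU, hT⟩
    exact ⟨K * U, by positivity, (h X p q hp hq U hU).2.2.2 hT⟩

end Pool.Agent.Results.MP_0880e2_an.ComparableConstants
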